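import Pool.Agent.Helper26.PN.Mac
import Pool.Agent.Helper86.PN.Open
import Pool.Agent.Helper86.PN.Count

/-!
# The final theorem
-/

set_option autoImplicit false

namespace Pool.Agent.Helper26.PN

open MvPolynomial

variable {m d : ℕ}

theorem pn_of (hd : 2 ≤ d) (hM : Mac m d)
    (hopen : ∀ F0 : Fin (m + 1) → MvPolynomial (Fin (m + 1)) ℝ, (∀ i, (F0 i).IsHomogeneous d) →
      NoZero F0 → ∃ e : ℝ, 0 < e ∧ ∀ lam : ℝ, 0 < lam →
        ∀ F : Fin (m + 1) → MvPolynomial (Fin (m + 1)) ℝ, (∀ i, (F i).IsHomogeneous d) →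
          (∀ i s, |coeff s (F i) - lam * coeff s (F0 i)| ≤ e * lam) → NoZero F) :
    ∃ c : ℝ, 0 < c ∧ ∃ B₀ : ℕ, ∀ B : ℕ, B₀ ≤ B → (hbox m d B).Finite ∧
      c * ((hbox m d B).ncard : ℝ) ≤ (({F ∈ hbox m d B | Fine F}).ncard : ℝ) := by
  obtain ⟨F0, e, hR⟩ := exists_ref hd hM
  obtain ⟨e', he', hopen'⟩ := hopen F0 hR.1 hR.2.1
  obtain ⟨c, hc, B₀, h⟩ := Pool.Agent.Helper86.PN.hcount F0 hR.1 (lt_min hR.2.2.1 he') 1
  refine ⟨c, hc, B₀, fun B hB => ?_⟩
  obtain ⟨hfin, h1⟩ := h B hB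
  have hbox : hbox m d B = Pool.Agent.Helper86.PN.hbox m d B := rfl
  rw [← hbox] at hfin h1
  refine ⟨hfin, h1.trans (Nat.cast_le.2 (Set.ncard_le_ncard ?_ (hfin.subset fun F hF => hF.1)))⟩
  rintro F ⟨hF, lam, hlam, -, hnear⟩
  exact ⟨hF, fine_of hR hlam (hopen' lam hlam) F (fun i => (hF i).1) hnear⟩

/-- **Main theorem.** For all `m` and `d ≥ 2` a positive proportion of all integral `(m + 1)`-tuples
of forms of degree `d` in `m + 1` variables defines an endomorphism of projective space for which all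
return sets of points over fields with a real embedding are finite or cofinite. -/
theorem pn_main (m : ℕ) {d : ℕ} (hd : 2 ≤ d) :
    ∃ c : ℝ, 0 < c ∧ ∃ B₀ : ℕ, ∀ B : ℕ, B₀ ≤ B → (hbox m d B).Finite ∧
      c * ((hbox m d B).ncard : ℝ) ≤ (({F ∈ hbox m d B | Fine F}).ncard : ℝ) :=
  pn_of hd (mac m d) fun F0 hF0 h => Pool.Agent.Helper86.PN.noZero_open F0 hF0 h

end Pool.Agent.Helper26.PN
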