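import Pool.Agent.Helper26.PN.Defs
import Pool.Agent.Helper26.PP.Descent

/-!
# Integral forms, and points over fields with a real embedding
-/

set_option autoImplicit false

namespace Pool.Agent.Helper26.PN

open MvPolynomial
open Pool.Agent.Helper86.MQ (pm)
open Pool.Agent.Helper26.PP (iter_hom)

variable {m d : ℕ}

/-- Homogeneous complex polynomials can be replaced by homogeneous polynomials over a subfield, as far
as points over this subfield are concerned. -/
theorem exists_descent_hom {K : Type*} [Field K] [Algebra K ℂ]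
    (V : Set (MvPolynomial (Fin (m + 1)) ℂ)) (hV : ∀ G ∈ V, ∃ e : ℕ, G.IsHomogeneous e) :
    ∃ W : Set (MvPolynomial (Fin (m + 1)) K), (∀ H ∈ W, ∃ e : ℕ, H.IsHomogeneous e) ∧
      ∀ y : Fin (m + 1) → K,
        (∀ G ∈ V, eval (fun i => algebraMap K ℂ (y i)) G = 0) ↔ ∀ H ∈ W, eval y H = 0 := by
  classical
  let b := Module.Basis.ofVectorSpace K ℂ
  have key : ∀ (y : Fin (m + 1) → K) (G : MvPolynomial (Fin (m + 1)) ℂ) (j),
      eval y (∑ s ∈ G.support, monomial s (b.repr (coeff s G) j)) =
        b.repr (eval (fun i => algebraMap K ℂ (y i)) G) j := by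
    intro y G j
    rw [map_sum, eval_eq, map_sum, Finsupp.coe_finsetSum, Finset.sum_apply]
    refine Finset.sum_congr rfl fun s _ => ?_
    have h1 : coeff s G * ∏ i ∈ s.support, (algebraMap K ℂ (y i)) ^ s i =
        (∏ i ∈ s.support, y i ^ s i) • coeff s G := by
      rw [Algebra.smul_def, map_prod, mul_comm]
      congr 1
      exact Finset.prod_congr rfl fun i _ => (map_pow _ _ _).symm
    rw [eval_monomial, h1, map_smul, Finsupp.smul_apply, smul_eq_mul, mul_comm]
    rfl
  refine ⟨{H | ∃ G ∈ V, ∃ j, H = ∑ s ∈ G.support, monomial s (b.repr (coeff s G) j)}, ?_,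
    fun y => ⟨?_, fun h G hG => ?_⟩⟩
  · rintro H ⟨G, hG, j, rfl⟩
    obtain ⟨e, he⟩ := hV G hG
    refine ⟨e, IsHomogeneous.sum _ _ _ fun s hs => isHomogeneous_monomial _ ?_⟩
    have h1 := he (mem_support_iff.1 hs)
    rwa [show (Finsupp.weight 1) s = s.degree from
      (DFunLike.congr_fun (Finsupp.degree_eq_weight_one (R := ℕ)) s).symm] at h1
  · rintro h H ⟨G, hG, j, rfl⟩
    rw [key, h G hG, map_zero]
    rfl
  · have h1 : b.repr (eval (fun i => algebraMap K ℂ (y i)) G) = 0 := by
      ext j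
      rw [← key]
      exact h _ ⟨G, hG, j, rfl⟩
    exact b.repr.map_eq_zero_iff.1 h1

/-- **Return sets for integral forms and points over a field with a real embedding.** -/
theorem good_embed (F : Fin (m + 1) → MvPolynomial (Fin (m + 1)) ℤ)
    (hom : ∀ i, (F i).IsHomogeneous d) (hG : Good fun i => map (Int.castRingHom ℝ) (F i))
    (α : Fin (m + 1) → ℂ) (hα0 : α ≠ 0) (K : Subfield ℂ) (hK : ∀ i, α i ∈ K) (σ : K →+* ℝ)
    (V : Set (MvPolynomial (Fin (m + 1)) ℂ)) (hV : ∀ G ∈ V, ∃ e : ℕ, G.IsHomogeneous e) :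
    {n : ℕ | ∀ G ∈ V, eval ((pm (fun i => map (Int.castRingHom ℂ) (F i)))^[n] α) G = 0}.Finite ∨
      ∃ n₁ : ℕ, ∀ n ≥ n₁, ∀ G ∈ V,
        eval ((pm (fun i => map (Int.castRingHom ℂ) (F i)))^[n] α) G = 0 := by
  set a : Fin (m + 1) → K := fun i => ⟨α i, hK i⟩ with ha
  set O : ℕ → Fin (m + 1) → K := fun n => (pm (fun i => map (Int.castRingHom K) (F i)))^[n] a
    with hO
  obtain ⟨W, hWh, hW⟩ := exists_descent_hom (m := m) (K := K) V hV
  have hset : ∀ n : ℕ, (∀ G ∈ V, eval ((pm (fun i => map (Int.castRingHom ℂ) (F i)))^[n] α) G = 0) ↔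
      ∀ H ∈ W, eval (O n) H = 0 := by
    intro n
    rw [← hW]
    have h1 := iter_hom (algebraMap K ℂ) (fun i => map (Int.castRingHom K) (F i)) a n
    have h2 : (fun i => map (algebraMap K ℂ) (map (Int.castRingHom K) (F i))) =
        fun i => map (Int.castRingHom ℂ) (F i) := by
      funext i
      rw [MvPolynomial.map_map,
        RingHom.ext_int ((algebraMap K ℂ).comp (Int.castRingHom K)) (Int.castRingHom ℂ)]
    rw [h2] at h1
    have h3 : (fun i => algebraMap K ℂ (a i)) = α := rfl
    rw [h3] at h1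
    rw [h1]
  -- the real orbit
  set x : ℕ → Fin (m + 1) → ℝ := fun n i => σ (O n i) with hx
  have hxs : ∀ n i, x (n + 1) i = eval (x n) (map (Int.castRingHom ℝ) (F i)) := by
    intro n i
    have h1 := iter_hom σ (fun i => map (Int.castRingHom K) (F i)) a
    have h2 : (fun i => map σ (map (Int.castRingHom K) (F i))) =
        fun i => map (Int.castRingHom ℝ) (F i) := by
      funext i
      rw [MvPolynomial.map_map,
        RingHom.ext_int (σ.comp (Int.castRingHom K)) (Int.castRingHom ℝ)]
    rw [h2] at h1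
    have h3 : ∀ n, x n = (pm (fun i => map (Int.castRingHom ℝ) (F i)))^[n] fun i => σ (a i) :=
      fun n => (h1 n).symm
    rw [h3, h3, Function.iterate_succ_apply', pm]
  have hx0 : x 0 ≠ 0 := by
    intro h
    apply hα0
    funext i
    have h1 : σ (a i) = 0 := congrFun h i
    have h2 : a i = 0 := (map_eq_zero σ).1 h1
    have h3 := congrArg (Subfield.subtype K) h2
    rw [map_zero] at h3
    exact h3
  have hres := (hG x hxs hx0).finite_or (d := d) (fun i => (hom i).map _) hxs
    ((fun H => map (Complex.ofRealHom.comp σ) H) '' W) (by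
      rintro _ ⟨H, hH, rfl⟩
      obtain ⟨e, he⟩ := hWh H hH
      exact ⟨e, he.map _⟩)
  have hiff : ∀ n : ℕ, (∀ G ∈ V, eval ((pm (fun i => map (Int.castRingHom ℂ) (F i)))^[n] α) G = 0) ↔
      ∀ G ∈ (fun H => map (Complex.ofRealHom.comp σ) H) '' W,
        eval (fun i => (x n i : ℂ)) G = 0 := by
    intro n
    rw [hset, Set.forall_mem_image]
    refine forall₂_congr fun H _ => ?_
    have h1 : eval (fun i => (x n i : ℂ)) (map (Complex.ofRealHom.comp σ) H) =
        Complex.ofRealHom.comp σ (eval (O n) H) := by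
      rw [eval_map]
      exact (eval₂_comp_left (Complex.ofRealHom.comp σ) (RingHom.id K) (O n) H).symm
    rw [h1]
    exact (map_eq_zero _).symm
  simp only [hiff]
  exact hres

end Pool.Agent.Helper26.PN
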