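import Pool.Agent.Helper26.PN.Odd
import Pool.Agent.Helper86.PN.Dyn

/-!
# Odd degree: all real orbits tend to one of finitely many fixed points
-/

set_option autoImplicit false

namespace Pool.Agent.Helper26.PN

open Finset MvPolynomial Filter
open Pool.Agent.Helper26.PP (Mn Mn_nonneg one_le_Mn eval_le hom_le eval_sub_le pderiv_le)
open Pool.Agent.Helper86.PN (Pert dyn)

variable {m e : ℕ} {lam ε : ℝ} {F : Fin (m + 1) → MvPolynomial (Fin (m + 1)) ℝ}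

theorem four_sub {i k : ℕ} (h : i ≠ k) : (3 : ℝ) ≤ |4 ^ i - 4 ^ k| := by
  rcases lt_or_gt_of_ne h with h1 | h1
  · rw [abs_sub_comm]
    refine le_trans ?_ (le_abs_self _)
    have h2 : (4 : ℝ) ^ (i + 1) ≤ 4 ^ k := pow_le_pow_right₀ (by norm_num) h1
    have h3 : (1 : ℝ) ≤ 4 ^ i := one_le_pow₀ (by norm_num)
    rw [pow_succ] at h2
    linarith
  · refine le_trans ?_ (le_abs_self _)
    have h2 : (4 : ℝ) ^ (k + 1) ≤ 4 ^ i := pow_le_pow_right₀ (by norm_num) h1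
    have h3 : (1 : ℝ) ≤ 4 ^ k := one_le_pow₀ (by norm_num)
    rw [pow_succ] at h2
    linarith

theorem four_sub_le {i k m : ℕ} (hi : i ≤ m) (hk : k ≤ m) : |(4 : ℝ) ^ i - 4 ^ k| ≤ 4 ^ m := by
  have h1 : (4 : ℝ) ^ i ≤ 4 ^ m := pow_le_pow_right₀ (by norm_num) hi
  have h2 : (4 : ℝ) ^ k ≤ 4 ^ m := pow_le_pow_right₀ (by norm_num) hk
  have h3 : (0 : ℝ) < 4 ^ i := by positivity
  have h4 : (0 : ℝ) < 4 ^ k := by positivity
  rw [abs_le]
  constructor <;> linarith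

theorem arith {lam A μ η K N P : ℝ} (hlam : 0 < lam) (hA : 1 ≤ A) (hμ : 1 / 2 ≤ μ) (hη : 0 ≤ η)
    (hK : 0 ≤ K) (hN : 0 ≤ N) (hP : 0 ≤ P) :
    lam * A * (P * η) + lam * (P * η * K) + η * (lam * N) + η * (lam * N) ≤
      η * (2 * (P * (1 + K) + 2 * N)) * (lam * A * μ) := by
  have e5 : lam * (P * η * K) ≤ A * (lam * (P * η * K)) :=
    le_mul_of_one_le_left (by positivity) hA
  have e6 : η * (lam * N) ≤ A * (η * (lam * N)) := le_mul_of_one_le_left (by positivity) hA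
  have e7 : η * (2 * (P * (1 + K) + 2 * N)) * (lam * A * (1 / 2)) ≤
      η * (2 * (P * (1 + K) + 2 * N)) * (lam * A * μ) :=
    mul_le_mul_of_nonneg_left (mul_le_mul_of_nonneg_left hμ (by positivity)) (by positivity)
  refine le_trans ?_ e7
  have e8 : η * (2 * (P * (1 + K) + 2 * N)) * (lam * A * (1 / 2)) =
      lam * A * (P * η) + A * (lam * (P * η * K)) + A * (η * (lam * N)) +
        A * (η * (lam * N)) := by ring
  rw [e8]
  linarith

/-- the Jacobian matrix at a fixed point -/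
theorem Qk_close {K : ℝ} (hK0 : 0 ≤ K)
    (hK : ∀ (x : Fin (m + 1) → ℝ), (∀ i, |x i| ≤ 1) → ∀ j, |eval x (pderiv j (Qp m ^ e))| ≤ K)
    (hlam : 0 < lam) (hom : ∀ i, (F i).IsHomogeneous (2 * e + 1))
    (hC : ConeO m e ε lam F) {k : Fin (m + 1)} {v : Fin (m + 1) → ℝ} (hvk : v k = 1)
    (hv : ∀ i, |v i| ≤ 1) (hη : ε * Mn m (2 * e + 1) ≤ 1 / 2)
    (hG : ∀ i : Fin (m + 1), 4 ^ (i : ℕ) * v i + phi e lam F i v =
      (4 ^ (k : ℕ) * v k + phi e lam F k v) * v i)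
    (i j : {j : Fin (m + 1) // j ≠ k}) :
    |Qk F k v (lam * eval v (Qp m ^ e) * (4 ^ (k : ℕ) * v k + phi e lam F k v)) i j -
      (if i = j then (4 : ℝ) ^ (i.1 : ℕ) / 4 ^ (k : ℕ) else 0)| ≤
        ε * Mn m (2 * e + 1) * (2 * (4 ^ m * (1 + K) + 2 * (2 * e + 1 : ℕ))) := by
  have hM := Mn_nonneg (m := m) (d := 2 * e + 1)
  have hε : 0 ≤ ε * lam := (abs_nonneg _).trans (coeff_Ef hC k 0)
  have hε0 : 0 ≤ ε := by
    by_contra h
    exact absurd (mul_neg_of_neg_of_pos (not_le.1 h) hlam) (not_lt.2 hε)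
  set η := ε * Mn m (2 * e + 1) with hηdef
  have hη0 : 0 ≤ η := mul_nonneg hε0 hM
  have hphi : ∀ i, |phi e lam F i v| ≤ η := by
    intro i
    have h := phi_le hlam hom hC i one_pos hv ⟨k, by rw [hvk, abs_one]⟩
    rwa [mul_one] at h
  have h4k : (1 : ℝ) ≤ 4 ^ (k : ℕ) := one_le_pow₀ (by norm_num)
  have hkm : (k : ℕ) ≤ m := Nat.le_of_lt_succ k.2
  have h4km : (4 : ℝ) ^ (k : ℕ) ≤ 4 ^ m := pow_le_pow_right₀ (by norm_num) hkm
  have h4m : (1 : ℝ) ≤ 4 ^ m := one_le_pow₀ (by norm_num)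
  rw [hvk, mul_one] at hG ⊢
  set f := phi e lam F k v with hf
  set μ := (4 : ℝ) ^ (k : ℕ) + f with hμ
  have hfk : |f| ≤ η := hphi k
  have hμ1 : 1 / 2 ≤ μ := by
    have := (abs_le.1 hfk).1
    linarith
  -- the coordinates of `v`
  have hvi : |v i.1| ≤ η := by
    have h1 := hG i.1
    have h2 : (4 ^ (i.1 : ℕ) - 4 ^ (k : ℕ) - f) * v i.1 = - phi e lam F i.1 v := by
      rw [hμ] at h1
      linear_combination h1
    have h3 : |(4 : ℝ) ^ (i.1 : ℕ) - 4 ^ (k : ℕ) - f| * |v i.1| ≤ η := by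
      rw [← abs_mul, h2, abs_neg]
      exact hphi _
    have h4 : (3 : ℝ) ≤ |4 ^ (i.1 : ℕ) - 4 ^ (k : ℕ)| :=
      four_sub (fun h => i.2 (Fin.ext h))
    have h5 : |(4 : ℝ) ^ (i.1 : ℕ) - 4 ^ (k : ℕ)| ≤
        |(4 : ℝ) ^ (i.1 : ℕ) - 4 ^ (k : ℕ) - f| + |f| := by
      have h6 := abs_add_le ((4 : ℝ) ^ (i.1 : ℕ) - 4 ^ (k : ℕ) - f) f
      rwa [sub_add_cancel] at h6
    have h6 : 1 ≤ |(4 : ℝ) ^ (i.1 : ℕ) - 4 ^ (k : ℕ) - f| := by linarith
    have h7 := mul_le_mul_of_nonneg_right h6 (abs_nonneg (v i.1))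
    rw [one_mul] at h7
    exact h7.trans h3
  have hA1 := Qe_ge_one (e := e) hvk
  have hE : ∀ i, |eval v (pderiv j.1 (Ef e lam F i))| ≤ η * (lam * (2 * e + 1 : ℕ)) := by
    intro i
    refine (pderiv_le (Ef_hom (lam := lam) hom i).totalDegree_le (coeff_Ef hC i) hv j.1).trans
      (le_of_eq ?_)
    rw [hηdef]
    ring
  have hD := hK v hv j.1
  have hFi : ∀ i, eval v (pderiv j.1 (F i)) = lam * eval v (pderiv j.1 (Pf m e i)) +
      eval v (pderiv j.1 (Ef e lam F i)) := by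
    intro i
    conv_lhs => rw [F_eq (F := F) (e := e) (lam := lam) i]
    rw [map_add, map_add, Derivation.leibniz, pderiv_C, smul_zero, add_zero, smul_eq_mul, map_mul,
      eval_C]
  rw [Qk, hFi, hFi, pderiv_Pf, pderiv_Pf, if_neg (show ¬ k = j.1 from fun h => j.2 h.symm),
    zero_mul, zero_add, hvk, one_mul]
  have hEi := hE i.1
  have hEk := hE k
  set A := eval v (Qp m ^ e) with hA
  set D := eval v (pderiv j.1 (Qp m ^ e)) with hDdef
  set a := eval v (pderiv j.1 (Ef e lam F i.1)) with ha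
  set b := eval v (pderiv j.1 (Ef e lam F k)) with hb
  have hδ : (if i.1 = j.1 then (1 : ℝ) else 0) = if i = j then 1 else 0 := by
    by_cases h : i = j
    · rw [if_pos h, if_pos (congrArg Subtype.val h)]
    · rw [if_neg h, if_neg (fun h1 => h (Subtype.ext h1))]
  rw [hδ]
  set t : ℝ := if i = j then 1 else 0 with ht
  have ht' : (if i = j then (4 : ℝ) ^ (i.1 : ℕ) / 4 ^ (k : ℕ) else 0) =
      t * (4 ^ (i.1 : ℕ) / 4 ^ (k : ℕ)) := by
    rw [ht]
    split_ifs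
    · rw [one_mul]
    · rw [zero_mul]
  rw [ht']
  have ht1 : |t| ≤ 1 := by
    rw [ht]
    split_ifs
    · rw [abs_one]
    · rw [abs_zero]
      exact zero_le_one
  have hA0 : 0 < A := by linarith
  have hμ0 : 0 < μ := by linarith
  have hc0 : 0 < lam * A * μ := by positivity
  have h4k0 : (4 : ℝ) ^ (k : ℕ) ≠ 0 := by positivity
  have h1 : (lam * (4 ^ (i.1 : ℕ) * (t * A + v i.1 * D)) + a -
      v i.1 * (lam * (4 ^ (k : ℕ) * D) + b)) / (lam * A * μ) - t * (4 ^ (i.1 : ℕ) / 4 ^ (k : ℕ)) =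
      (lam * A * (- (t * (4 ^ (i.1 : ℕ) / 4 ^ (k : ℕ)) * f)) +
        lam * ((4 ^ (i.1 : ℕ) - 4 ^ (k : ℕ)) * v i.1 * D) + a - v i.1 * b) / (lam * A * μ) := by
    rw [eq_div_iff hc0.ne', sub_mul, div_mul_cancel₀ _ hc0.ne', hμ]
    field_simp
    ring
  rw [h1, abs_div, abs_of_pos hc0, div_le_iff₀ hc0]
  clear h1 hG hFi
  have h4i : (4 : ℝ) ^ (i.1 : ℕ) / 4 ^ (k : ℕ) ≤ 4 ^ m := by
    rw [div_le_iff₀ (by positivity)]
    have h2 : (4 : ℝ) ^ (i.1 : ℕ) ≤ 4 ^ m :=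
      pow_le_pow_right₀ (by norm_num) (Nat.le_of_lt_succ i.1.2)
    nlinarith
  have e1 : |lam * A * (- (t * (4 ^ (i.1 : ℕ) / 4 ^ (k : ℕ)) * f))| ≤ lam * A * (4 ^ m * η) := by
    rw [abs_mul, abs_of_pos (by positivity : 0 < lam * A), abs_neg, abs_mul, abs_mul,
      abs_of_nonneg (by positivity : (0 : ℝ) ≤ 4 ^ (i.1 : ℕ) / 4 ^ (k : ℕ))]
    refine mul_le_mul_of_nonneg_left ?_ (by positivity)
    refine mul_le_mul ?_ hfk (abs_nonneg _) (by positivity)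
    have h2 : |t| * (4 ^ (i.1 : ℕ) / 4 ^ (k : ℕ)) ≤ 1 * (4 ^ (i.1 : ℕ) / 4 ^ (k : ℕ)) :=
      mul_le_mul_of_nonneg_right ht1 (by positivity)
    linarith
  have e2 : |lam * ((4 ^ (i.1 : ℕ) - 4 ^ (k : ℕ)) * v i.1 * D)| ≤ lam * (4 ^ m * η * K) := by
    rw [abs_mul, abs_of_pos hlam, abs_mul, abs_mul]
    refine mul_le_mul_of_nonneg_left ?_ hlam.le
    refine mul_le_mul (mul_le_mul (four_sub_le (Nat.le_of_lt_succ i.1.2) hkm) hvi (abs_nonneg _)
      (by positivity)) hD (abs_nonneg _) (by positivity)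
  have e3 : |v i.1 * b| ≤ η * (lam * (2 * e + 1 : ℕ)) := by
    rw [abs_mul]
    exact (mul_le_of_le_one_left (abs_nonneg _) (hv _)).trans hEk
  have e4 : |lam * A * (- (t * (4 ^ (i.1 : ℕ) / 4 ^ (k : ℕ)) * f)) +
      lam * ((4 ^ (i.1 : ℕ) - 4 ^ (k : ℕ)) * v i.1 * D) + a - v i.1 * b| ≤
      lam * A * (4 ^ m * η) + lam * (4 ^ m * η * K) + η * (lam * (2 * e + 1 : ℕ)) +
        η * (lam * (2 * e + 1 : ℕ)) := by
    refine (abs_sub _ _).trans (add_le_add ?_ e3)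
    refine (abs_add_le _ _).trans (add_le_add ?_ hEi)
    exact (abs_add_le _ _).trans (add_le_add e1 e2)
  refine e4.trans ?_
  exact arith hlam hA1 hμ1 hη0 hK0 (Nat.cast_nonneg _) (by positivity)

/-- **Odd degree.** -/
theorem odd_good (m e : ℕ) : ∃ ε : ℝ, 0 < ε ∧ ∀ lam : ℝ, 0 < lam →
    ∀ F : Fin (m + 1) → MvPolynomial (Fin (m + 1)) ℝ, (∀ i, (F i).IsHomogeneous (2 * e + 1)) →
      ConeO m e ε lam F → Good F := by
  obtain ⟨K, hK0, hKl, hKd⟩ := exists_Qe m e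
  obtain ⟨ε₀, hε₀, hdyn⟩ := dyn m (by norm_num : (0 : ℝ) < 1 / 4) (by norm_num)
  have hM1 := one_le_Mn (m := m) (d := 2 * e + 1)
  set M := Mn m (2 * e + 1) with hM
  set N : ℝ := ((2 * e + 1 : ℕ) : ℝ) with hN
  have hN0 : 0 ≤ N := Nat.cast_nonneg _
  have h4m : (1 : ℝ) ≤ 4 ^ m := one_le_pow₀ (by norm_num)
  have hm0 : (0 : ℝ) ≤ m := Nat.cast_nonneg _
  set C₁ : ℝ := M * (1 + N + K) with hC₁
  set C₂ : ℝ := M * (2 * (4 ^ m * (1 + K) + 2 * N)) * (4 * (m + 1) * 4 ^ m) with hC₂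
  have hC₁0 : 0 < C₁ := by positivity
  have hC₂0 : 0 < C₂ := by positivity
  refine ⟨min (ε₀ / C₁) (min (1 / (2 * M)) (1 / C₂)), by positivity, ?_⟩
  intro lam hlam F hom hC x hx hx0
  set ε := min (ε₀ / C₁) (min (1 / (2 * M)) (1 / C₂)) with hε
  have hε0 : 0 < ε := by positivity
  have hb1 : ε * C₁ ≤ ε₀ := (le_div_iff₀ hC₁0).1 (min_le_left _ _)
  have hb2 : ε * M ≤ 1 / 2 := by
    have h1 : ε ≤ 1 / (2 * M) := (min_le_right _ _).trans (min_le_left _ _)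
    rw [le_div_iff₀ (by positivity)] at h1
    linarith
  have hb3 : ε * C₂ ≤ 1 := (le_div_iff₀ hC₂0).1 ((min_le_right _ _).trans (min_le_right _ _))
  -- the perturbation
  have hpert : Pert m (ε * C₁) fun x i => phi e lam F i x := by
    refine ⟨fun x hx i => ?_, fun x hx t ht i => ?_, fun k x y hxk hyk hx hy i => ?_⟩
    · obtain ⟨j, hj⟩ := Finite.exists_max (fun j => |x j|)
      have hT : 0 < |x j| := by
        rw [abs_pos]
        intro h
        apply hx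
        funext i
        have h1 := hj i
        rw [h, abs_zero] at h1
        exact abs_nonpos_iff.1 h1
      refine (phi_le hlam hom hC i hT hj ⟨j, rfl⟩).trans ?_
      have h1 : |x j| ≤ ‖x‖ := norm_le_pi_norm x j
      refine mul_le_mul ?_ h1 (abs_nonneg _) (by positivity)
      refine mul_le_mul_of_nonneg_left ?_ hε0.le
      rw [hC₁]
      nlinarith
    · simp only [phi]
      have h1 : ∀ y : Fin (m + 1) → ℝ, (t • y) = fun i => t * y i := fun y => by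
        funext i
        rw [Pi.smul_apply, smul_eq_mul]
      rw [h1, eval_mul_hom (Ef_hom (lam := lam) hom i), eval_mul_hom (Qe_hom (e := e))]
      have ht2 : t ^ (2 * e) ≠ 0 := pow_ne_zero _ ht
      rw [pow_succ, mul_assoc, mul_left_comm lam, mul_div_mul_left _ _ ht2, mul_div_assoc]
    · have h1 := phi_sub_le hKl hlam hom hC i hx hy hxk hyk (δ := ‖x - y‖)
        (fun i => norm_le_pi_norm (x - y) i)
      refine h1.trans ?_
      refine mul_le_mul_of_nonneg_right ?_ (norm_nonneg _)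
      rw [hC₁, ← mul_assoc]
      refine mul_le_mul_of_nonneg_left ?_ (by positivity)
      linarith
  have hxs : ∀ n, ∃ s : ℝ, s ≠ 0 ∧ ∀ i : Fin (m + 1),
      x (n + 1) i = s * (4 ^ (i : ℕ) * x n i + phi e lam F i (x n)) := by
    intro n
    by_cases hn : x n = 0
    · refine ⟨1, one_ne_zero, fun i => ?_⟩
      have h1 : ∀ i, eval (0 : Fin (m + 1) → ℝ) (F i) = 0 := by
        intro i
        have h2 := eval_mul_hom (hom i) 0 (0 : Fin (m + 1) → ℝ)
        rw [zero_pow (by omega), zero_mul] at h2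
        rw [← h2]
        congr 2
        funext j
        rw [zero_mul]
        rfl
      have h2 : eval (0 : Fin (m + 1) → ℝ) (Ef e lam F i) = 0 := by
        have h2 := eval_mul_hom (Ef_hom (lam := lam) hom i) 0 (0 : Fin (m + 1) → ℝ)
        rw [zero_pow (by omega), zero_mul] at h2
        rw [← h2]
        congr 2
        funext j
        rw [zero_mul]
        rfl
      rw [hx, hn, h1, phi, h2, zero_div, Pi.zero_apply, mul_zero, add_zero, mul_zero]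
    · obtain ⟨j, hj⟩ := Finite.exists_max (fun j => |x n j|)
      have hT : 0 < |x n j| := by
        rw [abs_pos]
        intro h
        apply hn
        funext i
        have h1 := hj i
        rw [h, abs_zero] at h1
        exact abs_nonpos_iff.1 h1
      have h1 : 0 < eval (x n) (Qp m ^ e) :=
        (pow_pos hT (2 * e)).trans_le (Qe_ge ⟨j, rfl⟩)
      exact ⟨lam * eval (x n) (Qp m ^ e), (mul_pos hlam h1).ne', fun i => by
        rw [hx, F_phi hlam i h1]⟩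
  obtain ⟨k, v, C, n₀, hvk, hvj, hlim, hμ, hG⟩ := hdyn (ε * C₁) (by positivity) hb1 _ hpert x hx0 hxs
  have hv1 : ∀ i, |v i| ≤ 1 := by
    intro i
    by_cases hi : i = k
    · rw [hi, hvk, abs_one]
    · exact (hvj i hi).trans (by norm_num)
  have hA := Qe_ge_one (e := e) hvk
  have hc : lam * eval v (Qp m ^ e) * (4 ^ (k : ℕ) * v k + phi e lam F k v) ≠ 0 := by
    have h1 : 0 < 4 ^ (k : ℕ) * v k + phi e lam F k v := lt_of_lt_of_le (by norm_num) hμ
    positivity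
  have hFv : ∀ i, eval v (F i) =
      lam * eval v (Qp m ^ e) * (4 ^ (k : ℕ) * v k + phi e lam F k v) * v i := by
    intro i
    rw [F_phi hlam i (by linarith : 0 < eval v (Qp m ^ e)), mul_assoc _ _ (v i), ← hG i]
  have hclose := Qk_close hK0 hKd hlam hom hC hvk hv1 hb2 hG
  set τ := ε * M * (2 * (4 ^ m * (1 + K) + 2 * N)) with hτ
  have hτ0 : 0 ≤ τ := by positivity
  have hτ1 : τ * (4 * (m + 1) * 4 ^ m) ≤ 1 := by
    refine le_trans (le_of_eq ?_) hb3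
    rw [hτ, hC₂]
    ring
  have hkm : (4 : ℝ) ^ (k : ℕ) ≤ 4 ^ m := pow_le_pow_right₀ (by norm_num) (Nat.le_of_lt_succ k.2)
  have hmult := mult_of_close hom hvk hc hFv
    (fun i => (4 : ℝ) ^ (i.1 : ℕ) / 4 ^ (k : ℕ)) (γ := 3 / 4 ^ m) hτ0 hclose
    (fun i j hij => ?_) ?_ (fun i => ?_)
  · refine ⟨k, v, _, C, hvk, hc, hFv, eventually_atTop.2 ⟨n₀, fun n hn => hlim n hn⟩, hmult.1,
      hmult.2⟩
  · rw [← sub_div, abs_div, abs_of_pos (by positivity : (0 : ℝ) < 4 ^ (k : ℕ))]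
    have h1 : (3 : ℝ) ≤ |4 ^ (i.1 : ℕ) - 4 ^ (j.1 : ℕ)| :=
      four_sub fun h => hij (Subtype.ext (Fin.ext h))
    calc (3 : ℝ) / 4 ^ m ≤ 3 / 4 ^ (k : ℕ) :=
          div_le_div_of_nonneg_left (by norm_num) (by positivity) hkm
      _ ≤ |4 ^ (i.1 : ℕ) - 4 ^ (j.1 : ℕ)| / 4 ^ (k : ℕ) :=
          div_le_div_of_nonneg_right h1 (by positivity)
  · rw [lt_div_iff₀ (by positivity)]
    have h1 : 4 * (m : ℝ) * τ * 4 ^ m ≤ τ * (4 * (m + 1) * 4 ^ m) := by
      have : 0 ≤ τ * 4 ^ m := by positivity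
      nlinarith
    linarith
  · rw [lt_div_iff₀ (by positivity)]
    have h1 : (m : ℝ) * τ * 4 ^ (k : ℕ) ≤ (m : ℝ) * τ * 4 ^ m :=
      mul_le_mul_of_nonneg_left hkm (by positivity)
    have h2 : 4 * ((m : ℝ) * τ * 4 ^ m) ≤ 1 := by
      have h3 : 4 * ((m : ℝ) * τ * 4 ^ m) ≤ τ * (4 * (m + 1) * 4 ^ m) := by
        have : 0 ≤ τ * 4 ^ m := by positivity
        nlinarith
      linarith
    have h3 : (1 : ℝ) ≤ 4 ^ (i.1 : ℕ) := one_le_pow₀ (by norm_num)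
    linarith

end Pool.Agent.Helper26.PN
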