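import Pool.Agent.Helper26.PN.Even
import Pool.Agent.Helper26.PN.Embed
import Pool.Agent.Helper26.PN.OddGood

/-!
# Assembly
-/

set_option autoImplicit false

namespace Pool.Agent.Helper26.PN

open MvPolynomial
open Pool.Agent.Helper86.MQ (pm)
open Pool.Agent.Helper26.PP (kap eps kap_pos eps_pos Cone R0 coeff_R0 ref)

variable {m d : ℕ}

/-- the coefficients are close to `lam` times the ones of `F0` -/
def Near (e lam : ℝ) (F0 F : Fin (m + 1) → MvPolynomial (Fin (m + 1)) ℝ) : Prop :=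
  ∀ i s, |coeff s (F i) - lam * coeff s (F0 i)| ≤ e * lam

/-- a reference tuple -/
def Ref (d : ℕ) (F0 : Fin (m + 1) → MvPolynomial (Fin (m + 1)) ℝ) (e : ℝ) : Prop :=
  (∀ i, (F0 i).IsHomogeneous d) ∧ NoZero F0 ∧ 0 < e ∧ ∀ lam : ℝ, 0 < lam →
    ∀ F : Fin (m + 1) → MvPolynomial (Fin (m + 1)) ℝ, (∀ i, (F i).IsHomogeneous d) →
      Near e lam F0 F → Good F

/-- The Macaulay lemma -/
def Mac (m d : ℕ) : Prop := ∀ P : Fin (m + 1) → MvPolynomial (Fin (m + 1)) ℝ,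
  (∀ i, (P i).IsHomogeneous d) → ∀ δ : ℝ, 0 < δ →
    ∃ τ : ℝ, 0 < τ ∧ τ < δ ∧ NoZero fun i => P i + C τ * X i ^ d

theorem coeff_CX (τ : ℝ) (i : Fin (m + 1)) (s : Fin (m + 1) →₀ ℕ) (hτ : 0 ≤ τ) :
    |coeff s (C τ * X i ^ d : MvPolynomial (Fin (m + 1)) ℝ)| ≤ τ := by
  classical
  rw [coeff_C_mul, coeff_X_pow]
  split_ifs
  · rw [mul_one, abs_of_nonneg hτ]
  · rw [mul_zero, abs_zero]
    exact hτ

theorem CX_hom (τ : ℝ) (i : Fin (m + 1)) :
    (C τ * X i ^ d : MvPolynomial (Fin (m + 1)) ℝ).IsHomogeneous d := by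
  have h := (isHomogeneous_C (Fin (m + 1)) τ).mul (isHomogeneous_X_pow (R := ℝ) i d)
  rwa [zero_add] at h

/-- perturbation of the reference tuple -/
theorem ref_of (hM : Mac m d) {P : Fin (m + 1) → MvPolynomial (Fin (m + 1)) ℝ}
    (hP : ∀ i, (P i).IsHomogeneous d) {e : ℝ} (he : 0 < e)
    (hgood : ∀ lam : ℝ, 0 < lam → ∀ F : Fin (m + 1) → MvPolynomial (Fin (m + 1)) ℝ,
      (∀ i, (F i).IsHomogeneous d) → Near e lam P F → Good F) :
    ∃ F0 : Fin (m + 1) → MvPolynomial (Fin (m + 1)) ℝ, Ref d F0 (e / 2) := by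
  obtain ⟨τ, hτ0, hτ, hNZ⟩ := hM P hP (e / 2) (by linarith)
  refine ⟨_, fun i => (hP i).add (CX_hom τ i), hNZ, by linarith, fun lam hlam F hom hF =>
    hgood lam hlam F hom fun i s => ?_⟩
  have h1 := hF i s
  rw [coeff_add] at h1
  have h2 := coeff_CX (d := d) τ i s hτ0.le
  have h3 : coeff s (F i) - lam * coeff s (P i) = (coeff s (F i) -
      lam * (coeff s (P i) + coeff s (C τ * X i ^ d : MvPolynomial (Fin (m + 1)) ℝ))) +
      lam * coeff s (C τ * X i ^ d : MvPolynomial (Fin (m + 1)) ℝ) := by ring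
  rw [h3]
  refine (abs_add_le _ _).trans ?_
  rw [abs_mul, abs_of_pos hlam]
  nlinarith

theorem R0_hom (hd : 1 ≤ d) (i : Fin (m + 1)) : (R0 m d (kap m d) i).IsHomogeneous d := by
  rw [R0]
  split_ifs
  · refine IsHomogeneous.sum _ _ _ fun j _ => isHomogeneous_monomial _ ?_
    rw [Finsupp.degree_single]
  · refine isHomogeneous_monomial _ ?_
    rw [map_add, Finsupp.degree_single, Finsupp.degree_single]
    omega

theorem ref_even (hd : 2 ≤ d) (he : Even d) (hM : Mac m d) :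
    ∃ (F0 : Fin (m + 1) → MvPolynomial (Fin (m + 1)) ℝ) (e : ℝ), Ref d F0 e := by
  have hd1 : 1 ≤ d := by omega
  obtain ⟨F0, h⟩ := ref_of hM (R0_hom hd1) (eps_pos (m := m) hd1) fun lam hlam F hom hF =>
    even_good hd he hlam hom fun i s _ => by
      have h1 := hF i s
      rwa [coeff_R0 hd1] at h1
  exact ⟨F0, _, h⟩

theorem ref_odd (e : ℕ) (hM : Mac m (2 * e + 1)) :
    ∃ (F0 : Fin (m + 1) → MvPolynomial (Fin (m + 1)) ℝ) (ε : ℝ), Ref (2 * e + 1) F0 ε := by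
  obtain ⟨ε, hε, h⟩ := odd_good m e
  obtain ⟨F0, h⟩ := ref_of hM (fun i => Pf_hom i) hε fun lam hlam F hom hF =>
    h lam hlam F hom hF
  exact ⟨F0, _, h⟩

theorem exists_ref (hd : 2 ≤ d) (hM : Mac m d) :
    ∃ (F0 : Fin (m + 1) → MvPolynomial (Fin (m + 1)) ℝ) (e : ℝ), Ref d F0 e := by
  rcases Nat.even_or_odd d with h | ⟨e, rfl⟩
  · exact ref_even hd h hM
  · exact ref_odd e hM

/-- integral tuples of forms -/
def hbox (m d B : ℕ) : Set (Fin (m + 1) → MvPolynomial (Fin (m + 1)) ℤ) :=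
  {F | ∀ i, (F i).IsHomogeneous d ∧ ∀ s, |coeff s (F i)| ≤ (B : ℤ)}

/-- the property of the endomorphism given by the forms `F i` -/
def Fine (F : Fin (m + 1) → MvPolynomial (Fin (m + 1)) ℤ) : Prop :=
  (∀ z : Fin (m + 1) → ℂ, (∀ i, aeval z (F i) = 0) → z = 0) ∧
    ∀ K : Subfield ℂ, Nonempty (K →+* ℝ) → ∀ α : Fin (m + 1) → ℂ, α ≠ 0 → (∀ i, α i ∈ K) →
      ∀ V : Set (MvPolynomial (Fin (m + 1)) ℂ), (∀ G ∈ V, ∃ e : ℕ, G.IsHomogeneous e) →
        {n : ℕ | ∀ G ∈ V, eval ((pm (fun i => map (Int.castRingHom ℂ) (F i)))^[n] α) G = 0}.Finite ∨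
          ∃ n₁ : ℕ, ∀ n ≥ n₁, ∀ G ∈ V,
            eval ((pm (fun i => map (Int.castRingHom ℂ) (F i)))^[n] α) G = 0

theorem fine_of {F0 : Fin (m + 1) → MvPolynomial (Fin (m + 1)) ℝ} {e e' lam : ℝ}
    (hR : Ref d F0 e) (hlam : 0 < lam)
    (hopen : ∀ F : Fin (m + 1) → MvPolynomial (Fin (m + 1)) ℝ, (∀ i, (F i).IsHomogeneous d) →
      Near e' lam F0 F → NoZero F) (F : Fin (m + 1) → MvPolynomial (Fin (m + 1)) ℤ)
    (hom : ∀ i, (F i).IsHomogeneous d)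
    (hF : Near (min e e') lam F0 fun i => map (Int.castRingHom ℝ) (F i)) : Fine F := by
  have homR : ∀ i, (map (Int.castRingHom ℝ) (F i)).IsHomogeneous d := fun i => (hom i).map _
  have hN := hopen _ homR fun i s => (hF i s).trans
    (mul_le_mul_of_nonneg_right (min_le_right _ _) hlam.le)
  have hG := hR.2.2.2 lam hlam _ homR fun i s => (hF i s).trans
    (mul_le_mul_of_nonneg_right (min_le_left _ _) hlam.le)
  refine ⟨fun z hz => hN z fun i => ?_, ?_⟩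
  · rw [aeval_def, eval₂_map, RingHom.ext_int ((algebraMap ℝ ℂ).comp (Int.castRingHom ℝ))
      (algebraMap ℤ ℂ), ← aeval_def]
    exact hz i
  · rintro K ⟨σ⟩ α hα0 hα V hV
    exact good_embed F hom hG α hα0 K hα σ V hV

end Pool.Agent.Helper26.PN
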