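import Pool.Agent.Helper52.AT.Aff

/-!
# Orbits of points of projective space which tend to a fixed point with positive multipliers
-/

set_option autoImplicit false

namespace Pool.Agent.Helper26.PN

open Filter Topology MvPolynomial
open Pool.Agent.Helper52.AT (affine_main tr eval_tr pderiv_tr Tan)

variable {m : ℕ}

theorem eval_mul_hom {K : Type*} [CommRing K] {F : MvPolynomial (Fin (m + 1)) K} {d : ℕ}
    (hF : F.IsHomogeneous d) (c : K) (v : Fin (m + 1) → K) :
    eval (fun i => c * v i) F = c ^ d * eval v F := by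
  rw [eval_eq', eval_eq', Finset.mul_sum]
  refine Finset.sum_congr rfl fun s hs => ?_
  have h1 : ∑ i, s i = d := by
    have := hF (mem_support_iff.mp hs)
    rw [← this, Finsupp.weight_apply, Finsupp.sum_fintype _ _ (by simp)]
    simp
  have h2 : ∏ i, (c * v i) ^ s i = c ^ d * ∏ i, v i ^ s i := by
    simp only [mul_pow, Finset.prod_mul_distrib, Finset.prod_pow_eq_pow_sum, h1]
  rw [h2]
  ring

/-- finitely many of the polynomials suffice -/
theorem exists_finset (V : Set (MvPolynomial (Fin (m + 1)) ℂ)) :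
    ∃ B₀ : Finset (MvPolynomial (Fin (m + 1)) ℂ), (∀ F ∈ B₀, F ∈ V) ∧
      ∀ v : Fin (m + 1) → ℂ, (∀ F ∈ B₀, eval v F = 0) → ∀ F ∈ V, eval v F = 0 := by
  obtain ⟨B₀, hB₀, hspan⟩ := (Submodule.fg_span_iff_fg_span_finset_subset V).mp
    (IsNoetherian.noetherian (Submodule.span (MvPolynomial (Fin (m + 1)) ℂ) V))
  refine ⟨B₀, fun F hF => hB₀ hF, fun v hv F hF => ?_⟩
  have h1 : F ∈ Submodule.span (MvPolynomial (Fin (m + 1)) ℂ)
      (B₀ : Set (MvPolynomial (Fin (m + 1)) ℂ)) := by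
    rw [← hspan]
    exact Submodule.subset_span hF
  refine Submodule.span_induction (p := fun F _ => eval v F = 0) ?_ ?_ ?_ ?_ h1
  · intro G hG
    exact hv G hG
  · simp
  · intro G H _ _ hG hH
    rw [map_add, hG, hH, add_zero]
  · intro a G _ hG
    rw [smul_eq_mul, map_mul, hG, mul_zero]

/-- **Orbits which tend geometrically to an unramified fixed point with positive multipliers.** -/
theorem proj_attr {d : ℕ} {F : Fin (m + 1) → MvPolynomial (Fin (m + 1)) ℂ}
    (hF : ∀ i, (F i).IsHomogeneous d) (k : Fin (m + 1)) {v : Fin (m + 1) → ℂ} (hv : v k = 1)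
    {c : ℂ} (hc : c ≠ 0) (hFv : ∀ i, eval v (F i) = c * v i)
    (hinj : ∀ (h : Fin (m + 1) → ℂ) (β : ℂ), (∀ i, ∑ j, h j * eval v (pderiv j (F i)) = β * v i) →
      ∃ γ : ℂ, ∀ i, h i = γ * v i)
    (hpos : ∀ (h : Fin (m + 1) → ℂ) (z β : ℂ), (¬ ∃ γ : ℂ, ∀ i, h i = γ * v i) →
      (∀ i, ∑ j, h j * eval v (pderiv j (F i)) - c * z * h i = β * v i) → z.im = 0 ∧ 0 < z.re)
    (x : ℕ → Fin (m + 1) → ℂ) (hx : ∀ n i, x (n + 1) i = eval (x n) (F i))
    {ρ : ℝ} (hρ0 : 0 < ρ) (hρ1 : ρ < 1)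
    (hxv : ∃ C : ℝ, ∀ᶠ n in atTop, x n k ≠ 0 ∧ ∀ i, ‖x n i / x n k - v i‖ ≤ C * ρ ^ n)
    (V : Set (MvPolynomial (Fin (m + 1)) ℂ)) (hV : ∀ G ∈ V, ∃ e : ℕ, G.IsHomogeneous e) :
    {n : ℕ | ∀ G ∈ V, eval (x n) G = 0}.Finite ∨ ∃ n₁ : ℕ, ∀ n ≥ n₁, ∀ G ∈ V, eval (x n) G = 0 := by
  classical
  obtain ⟨C₁, hxv⟩ := hxv
  set y : ℕ → Fin (m + 1) → ℂ := fun n j => x n j / x n k - v j with hy
  set Q : MvPolynomial (Fin (m + 1)) ℂ := tr v (F k) with hQ
  set P : Fin (m + 1) → MvPolynomial (Fin (m + 1)) ℂ := fun i => tr v (F i) - C (v i) * Q with hP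
  have hQ0 : eval 0 Q = c := by
    rw [hQ, eval_tr, zero_add, hFv, hv, mul_one]
  -- evaluation of translated forms
  have hev : ∀ n, x n k ≠ 0 → ∀ {e : ℕ} {G : MvPolynomial (Fin (m + 1)) ℂ}, G.IsHomogeneous e →
      eval (x n) G = x n k ^ e * eval (y n) (tr v G) := by
    intro n hn e G hG
    rw [eval_tr, ← eval_mul_hom hG]
    congr 2
    funext j
    simp only [hy, Pi.add_apply, sub_add_cancel]
    rw [mul_div_cancel₀ _ hn]
  have hx1 : ∀ᶠ n in atTop, x n k ≠ 0 ∧ x (n + 1) k ≠ 0 := by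
    filter_upwards [hxv, (tendsto_add_atTop_nat 1).eventually hxv] with n h1 h2
    exact ⟨h1.1, h2.1⟩
  have hPi : ∀ (h : Fin (m + 1) → ℂ) i, ∑ j, h j * eval 0 (pderiv j (P i)) =
      ∑ j, h j * eval v (pderiv j (F i)) - v i * ∑ j, h j * eval v (pderiv j (F k)) := by
    intro h i
    rw [Finset.mul_sum, ← Finset.sum_sub_distrib]
    refine Finset.sum_congr rfl fun j _ => ?_
    simp only [hP]
    rw [map_sub, map_sub, Derivation.leibniz, pderiv_C, smul_zero, add_zero, smul_eq_mul, map_mul,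
      eval_C, pderiv_tr, eval_tr, zero_add, hQ, pderiv_tr, eval_tr, zero_add]
    ring
  have hTk : ∀ h ∈ Tan y, h k = 0 := by
    intro h hh
    have h1 := hh (X k) (by
      filter_upwards [hxv] with n hn
      rw [eval_X]
      simp only [hy]
      rw [div_self hn.1, hv, sub_self])
    rw [Finset.sum_eq_single k] at h1
    · rwa [pderiv_X_self, map_one, mul_one] at h1
    · intro b _ hb
      rw [pderiv_X_of_ne (Ne.symm hb), map_zero, mul_zero]
    · intro h3
      exact absurd (Finset.mem_univ _) h3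
  have hne : ∀ h ∈ Tan y, h ≠ 0 → ¬ ∃ γ : ℂ, ∀ i, h i = γ * v i := by
    rintro h hh h0 ⟨γ, hγ⟩
    apply h0
    have h1 := hγ k
    rw [hTk h hh, hv, mul_one] at h1
    funext i
    rw [hγ i, ← h1, zero_mul, Pi.zero_apply]
  have main : ∀ (g : MvPolynomial (Fin (m + 1)) ℂ),
      (∀ᶠ n in atTop, eval (y n) g = 0) ∨ (∀ᶠ n in atTop, eval (y n) g ≠ 0) := by
    intro g
    have hreals : ∀ μ ∈ Submonoid.closure {x : ℂ | ∃ h ∈ Tan y, h ≠ 0 ∧
        ∀ i, ∑ j, h j * eval 0 (pderiv j (P i)) = x * eval 0 Q * h i}, μ.im = 0 ∧ 0 ≤ μ.re := by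
      intro μ hμ
      induction hμ using Submonoid.closure_induction with
      | mem z hz =>
        obtain ⟨h, hT, hh, hz⟩ := hz
        refine (hpos h z (∑ j, h j * eval v (pderiv j (F k))) (hne h hT hh) fun i => ?_).imp_right
          le_of_lt
        have h1 := hz i
        rw [hPi, hQ0] at h1
        linear_combination h1
      | one => exact ⟨Complex.one_im, zero_le_one⟩
      | mul z z' _ _ h1 h2 =>
        refine ⟨by rw [Complex.mul_im, h1.1, h2.1, mul_zero, zero_mul, add_zero], ?_⟩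
        rw [Complex.mul_re, h1.1, h2.1, mul_zero, sub_zero]
        exact mul_nonneg h1.2 h2.2
    have haff := affine_main y ρ hρ0 hρ1 ?_ P Q (by rw [hQ0]; exact hc) ?_ ?_ 0 0 1 ?_ ?_ ?_ ?_
      (M := 1) le_rfl ?_ g 0
    · simpa only [one_mul, add_zero] using haff
    · exact ⟨C₁, hxv.mono fun n hn i => hn.2 i⟩
    · intro i
      simp only [hP]
      rw [map_sub, map_mul, eval_C, hQ0, eval_tr, zero_add, hFv]
      ring
    · filter_upwards [hx1] with n hn i
      have h1 := hev n hn.1 (hF k)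
      have h2 := hev n hn.1 (hF i)
      rw [← hx] at h1 h2
      simp only [hP]
      rw [map_sub, map_mul, eval_C]
      have h3 : x n k ^ d ≠ 0 := pow_ne_zero _ hn.1
      have h4 : y (n + 1) i = eval (y n) (tr v (F i)) / eval (y n) Q - v i := by
        simp only [hy]
        rw [h1, h2, mul_div_mul_left _ _ h3]
      have h5 : eval (y n) Q ≠ 0 := by
        intro h6
        rw [← hQ, h6, mul_zero] at h1
        exact hn.2 h1
      rw [h4, mul_sub, mul_div_cancel₀ _ h5]
      ring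
    · simp
    · simp
    · filter_upwards with n
      simp
    · intro h hh _ h2
      by_contra h0
      apply hne h hh h0
      refine hinj h (∑ j, h j * eval v (pderiv j (F k))) fun i => ?_
      have h3 := h2 i
      rw [hPi] at h3
      linear_combination h3
    · intro μ hμ ν hν hnorm
      obtain ⟨h1, h1'⟩ := hreals μ hμ
      obtain ⟨h2, h2'⟩ := hreals ν hν
      have h3 : (μ.re : ℂ) = μ := Complex.ext rfl (by rw [Complex.ofReal_im, h1])
      have h4 : (ν.re : ℂ) = ν := Complex.ext rfl (by rw [Complex.ofReal_im, h2])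
      rw [← h3, ← h4, Complex.norm_real, Complex.norm_real, Real.norm_eq_abs,
        Real.norm_eq_abs, abs_of_nonneg h1', abs_of_nonneg h2'] at hnorm
      rw [← h3, ← h4, hnorm]
  obtain ⟨B₀, hB₀, hB₀z⟩ := exists_finset V
  have key : ∀ E ∈ V,
      (∀ᶠ n in atTop, eval (x n) E = 0) ∨ (∀ᶠ n in atTop, eval (x n) E ≠ 0) := by
    intro E hE
    obtain ⟨e, he⟩ := hV E hE
    rcases main (tr v E) with h | h
    · left
      filter_upwards [h, hxv] with n h2 h3
      rw [hev n h3.1 he, h2, mul_zero]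
    · right
      filter_upwards [h, hxv] with n h2 h3
      rw [hev n h3.1 he]
      exact mul_ne_zero (pow_ne_zero _ h3.1) h2
  by_cases hall : ∀ E ∈ B₀, ∀ᶠ n in atTop, eval (x n) E = 0
  · right
    have h1 : ∀ᶠ n in atTop, ∀ E ∈ B₀, eval (x n) E = 0 := by
      rw [Filter.eventually_all_finset]
      exact hall
    obtain ⟨n₀, hn₀⟩ := eventually_atTop.1 h1
    exact ⟨n₀, fun n hn => hB₀z _ (hn₀ n hn)⟩
  · left
    push Not at hall
    obtain ⟨E, hE, hne'⟩ := hall
    have h1 : ∀ᶠ n in atTop, eval (x n) E ≠ 0 :=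
      (key E (hB₀ E hE)).resolve_left (fun h => hne' (h.mono fun n hn => not_not.2 hn))
    obtain ⟨n₀, hn₀⟩ := eventually_atTop.1 h1
    refine (Set.finite_lt_nat n₀).subset fun n hn => ?_
    by_contra hcon
    exact hn₀ n (not_lt.1 hcon) (hn E (hB₀ E hE))

end Pool.Agent.Helper26.PN
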