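import Pool.Agent.Helper26.PN.Attr

/-!
# Real orbits which tend to a fixed point with positive multipliers
-/

set_option autoImplicit false

namespace Pool.Agent.Helper26.PN

open Filter Topology MvPolynomial

variable {m : ℕ}

/-- no common zero in `ℂ ^ (m + 1)` except `0` -/
def NoZero (F : Fin (m + 1) → MvPolynomial (Fin (m + 1)) ℝ) : Prop :=
  ∀ z : Fin (m + 1) → ℂ, (∀ i, aeval z (F i) = 0) → z = 0

/-- The points `x n` tend geometrically to a fixed point of the map of projective space given by the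
forms `F i`, which is unramified there with positive multipliers. -/
def Attr (F : Fin (m + 1) → MvPolynomial (Fin (m + 1)) ℝ) (x : ℕ → Fin (m + 1) → ℝ) : Prop :=
  ∃ (k : Fin (m + 1)) (v : Fin (m + 1) → ℝ) (c C : ℝ), v k = 1 ∧ c ≠ 0 ∧
    (∀ i, eval v (F i) = c * v i) ∧
    (∀ᶠ n in atTop, x n k ≠ 0 ∧ ∀ i, |x n i / x n k - v i| ≤ C * (1 / 2) ^ n) ∧
    (∀ (h : Fin (m + 1) → ℂ) (β : ℂ),
      (∀ i, ∑ j, h j * ((eval v (pderiv j (F i)) : ℝ) : ℂ) = β * v i) →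
        ∃ γ : ℂ, ∀ i, h i = γ * v i) ∧
    ∀ (h : Fin (m + 1) → ℂ) (z β : ℂ), (¬ ∃ γ : ℂ, ∀ i, h i = γ * v i) →
      (∀ i, ∑ j, h j * ((eval v (pderiv j (F i)) : ℝ) : ℂ) - c * z * h i = β * v i) →
        z.im = 0 ∧ 0 < z.re

/-- all orbits of real points are of this kind -/
def Good (F : Fin (m + 1) → MvPolynomial (Fin (m + 1)) ℝ) : Prop :=
  ∀ x : ℕ → Fin (m + 1) → ℝ, (∀ n i, x (n + 1) i = eval (x n) (F i)) → x 0 ≠ 0 → Attr F x

theorem eval_ofReal (P : MvPolynomial (Fin (m + 1)) ℝ) (v : Fin (m + 1) → ℝ) :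
    eval (fun i => (v i : ℂ)) (map Complex.ofRealHom P) = ((eval v P : ℝ) : ℂ) := by
  rw [eval_map]
  exact (eval₂_comp_left Complex.ofRealHom (RingHom.id ℝ) v P).symm

/-- the return sets of these orbits -/
theorem Attr.finite_or {d : ℕ} {F : Fin (m + 1) → MvPolynomial (Fin (m + 1)) ℝ}
    (hF : ∀ i, (F i).IsHomogeneous d) {x : ℕ → Fin (m + 1) → ℝ}
    (hx : ∀ n i, x (n + 1) i = eval (x n) (F i)) (h : Attr F x)
    (V : Set (MvPolynomial (Fin (m + 1)) ℂ)) (hV : ∀ G ∈ V, ∃ e : ℕ, G.IsHomogeneous e) :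
    {n : ℕ | ∀ G ∈ V, eval (fun i => (x n i : ℂ)) G = 0}.Finite ∨
      ∃ n₁ : ℕ, ∀ n ≥ n₁, ∀ G ∈ V, eval (fun i => (x n i : ℂ)) G = 0 := by
  obtain ⟨k, v, c, C, hv, hc, hFv, hxv, hinj, hpos⟩ := h
  have hder : ∀ i j, eval (fun i => (v i : ℂ)) (pderiv j (map Complex.ofRealHom (F i))) =
      ((eval v (pderiv j (F i)) : ℝ) : ℂ) := by
    intro i j
    rw [pderiv_map, eval_ofReal]
  refine proj_attr (F := fun i => map Complex.ofRealHom (F i)) (v := fun i => (v i : ℂ))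
    (c := (c : ℂ)) (ρ := 1 / 2) (fun i => (hF i).map _) k ?_ (Complex.ofReal_ne_zero.2 hc)
    (fun i => ?_) (fun h β hh => hinj h β fun i => ?_) (fun h z β h0 hh => hpos h z β h0 fun i => ?_)
    (fun n i => (x n i : ℂ)) (fun n i => ?_) (by norm_num) (by norm_num) ⟨C, ?_⟩ V hV
  · show ((v k : ℝ) : ℂ) = 1
    rw [hv, Complex.ofReal_one]
  · rw [eval_ofReal, hFv]
    push_cast
    rfl
  · rw [← hh i]
    exact Finset.sum_congr rfl fun j _ => by rw [hder]
  · rw [← hh i]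
    congr 1
    exact Finset.sum_congr rfl fun j _ => by rw [hder]
  · rw [eval_ofReal, hx]
  · filter_upwards [hxv] with n hn
    refine ⟨Complex.ofReal_ne_zero.2 hn.1, fun i => ?_⟩
    rw [← Complex.ofReal_div, ← Complex.ofReal_sub, Complex.norm_real, Real.norm_eq_abs]
    exact hn.2 i

end Pool.Agent.Helper26.PN
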