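import Pool.Agent.Helper26.PN.Defs
import Pool.Agent.Helper26.PP.Orbit
import Pool.Agent.Helper26.PP.Mult

/-!
# Even degree: all real points tend to one fixed point
-/

set_option autoImplicit false

namespace Pool.Agent.Helper26.PN

open Filter Topology MvPolynomial
open Pool.Agent.Helper26.PP

variable {m d : ℕ} {lam : ℝ} {F : Fin (m + 1) → MvPolynomial (Fin (m + 1)) ℝ}

theorem Fd_hom_eq (hom : ∀ i, (F i).IsHomogeneous d) : Fd d F = F := by
  funext i
  rw [Fd]
  rw [homogeneousComponent_of_mem (hom i), if_pos rfl]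

theorem even_good (hd : 2 ≤ d) (he : Even d) (hlam : 0 < lam) (hom : ∀ i, (F i).IsHomogeneous d)
    (hC : Cone m d (kap m d) (eps m d) lam F) : Good F := by
  intro x hx hx0
  have hd1 : 1 ≤ d := by omega
  have hFd := Fd_hom_eq hom
  obtain ⟨c1, c2, c3, c4, c5, c6, c7, c8, c9⟩ := consts (m := m) hd1
  -- one step
  have hstep : ∀ y : Fin (m + 1) → ℝ, y ≠ 0 → 0 < eval y (F (Fin.last m)) ∧
      ∀ i, |eval y (F i)| ≤ eval y (F (Fin.last m)) := by
    intro y hy
    obtain ⟨j, hj⟩ := Finite.exists_max (fun j => |y j|)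
    have hT : 0 < |y j| := by
      rw [abs_pos]
      intro h
      apply hy
      funext i
      have h1 := hj i
      rw [h, abs_zero] at h1
      exact abs_nonpos_iff.1 h1
    have h1 := last_ge_half hd1 he hlam hC hj ⟨j, rfl⟩
    rw [hFd] at h1
    have h2 : 0 < lam / 2 * |y j| ^ d := by positivity
    refine ⟨by linarith, fun i => ?_⟩
    by_cases hi : i = Fin.last m
    · rw [hi, abs_of_pos (by linarith)]
    · have h3 := ne_le hd1 hlam hC hi hj
      rw [hFd] at h3
      refine h3.trans (le_trans ?_ h1)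
      refine mul_le_mul_of_nonneg_right ?_ (pow_nonneg hT.le _)
      rw [div_eq_mul_one_div]
      exact mul_le_mul_of_nonneg_left (by linarith) hlam.le
  have hpos : ∀ n, 0 < x (n + 1) (Fin.last m) ∧ ∀ i, |x (n + 1) i| ≤ x (n + 1) (Fin.last m) := by
    intro n
    induction n with
    | zero =>
      rw [hx]
      exact ⟨(hstep _ hx0).1, fun i => by rw [hx]; exact (hstep _ hx0).2 i⟩
    | succ n ih =>
      have h1 : x (n + 1) ≠ 0 := by
        intro h
        rw [h] at ih
        exact lt_irrefl _ ih.1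
      rw [hx]
      exact ⟨(hstep _ h1).1, fun i => by rw [hx]; exact (hstep _ h1).2 i⟩
  -- the directions
  set w : ℕ → Fin (m + 1) → ℝ := fun n i => x (n + 1) i / x (n + 1) (Fin.last m) with hw
  have hwl : ∀ n, w n (Fin.last m) = 1 := fun n => div_self (hpos n).1.ne'
  have hw1 : ∀ n i, |w n i| ≤ 1 := by
    intro n i
    simp only [hw]
    rw [abs_div, abs_of_pos (hpos n).1]
    exact (div_le_one (hpos n).1).2 ((hpos n).2 i)
  have hwG : ∀ n i, w (n + 1) i = Gd d F (w n) i := by
    intro n i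
    have h1 : x (n + 1) = fun i => x (n + 1) (Fin.last m) * w n i := by
      funext i
      simp only [hw]
      rw [mul_div_cancel₀ _ (hpos n).1.ne']
    have h2 : ∀ i, x (n + 1 + 1) i = x (n + 1) (Fin.last m) ^ d * eval (w n) (F i) := by
      intro i
      rw [hx, ← Pool.Agent.Helper26.PN.eval_mul_hom (hom i), ← h1]
    rw [Gd, hFd]
    show x (n + 1 + 1) i / x (n + 1 + 1) (Fin.last m) = _
    rw [h2, h2, mul_div_mul_left _ _ (pow_ne_zero _ (hpos n).1.ne')]
  obtain ⟨v, A, hvl, hv1, hA, hlim, -, hF⟩ := orbit_limit hd he hlam hC (K := 0) (M₀ := 1) le_rfl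
    le_rfl (fun n i => 4 ^ n * w n i) (fun n => by
      rw [hwl, mul_one, one_mul, abs_of_nonneg (by positivity)]) (fun n i => by
      rw [hwl, mul_one, abs_mul]
      exact mul_le_of_le_one_right (abs_nonneg _) (hw1 n i)) (fun n i => by
      have h4 : ∀ n : ℕ, (4 : ℝ) ^ n ≠ 0 := fun n => pow_ne_zero _ (by norm_num)
      have h5 : (fun j => 4 ^ n * w n j / (4 ^ n * w n (Fin.last m))) = w n := by
        funext j
        rw [hwl, mul_div_mul_left _ _ (h4 n), div_one]
      rw [h5, hwl, mul_div_mul_left _ _ (h4 _), div_one, hwG, sub_self, abs_zero, zero_div])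
  rw [hFd] at hF
  have hF' : ∀ i, eval v (Fd d F i) = eval v (Fd d F (Fin.last m)) * v i := by
    rw [hFd]
    exact hF
  obtain ⟨-, -, hc⟩ := v_le hd he hlam hC hv1 hvl hF'
  have hm := mult_pos hd he hlam hC hv1 hvl hF'
  rw [hFd] at hc hm
  have hJ : ∀ i j, Jd d F v i j = eval v (pderiv j (F i)) := by
    intro i j
    rw [Jd, hFd]
  refine ⟨Fin.last m, v, eval v (F (Fin.last m)), 2 * A, hvl, by linarith, hF, ?_, ?_, ?_⟩
  · filter_upwards [eventually_ge_atTop 1] with n hn
    obtain ⟨k, rfl⟩ := Nat.exists_eq_add_of_le' hn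
    refine ⟨(hpos k).1.ne', fun i => ?_⟩
    have h1 := hlim k i
    have h4 : (4 : ℝ) ^ k ≠ 0 := pow_ne_zero _ (by norm_num)
    simp only [hwl] at h1
    rw [mul_div_mul_left _ _ h4, div_one] at h1
    refine h1.trans (le_of_eq ?_)
    rw [pow_succ]
    ring
  · intro h β hh
    exact hm.1 h β fun i => by simp only [hJ]; exact hh i
  · intro h z β h0 hh
    exact hm.2 h z β h0 fun i => by simp only [hJ]; exact hh i

end Pool.Agent.Helper26.PN
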