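import Pool.Agent.Helper26.PN.Assembly

/-!
# The Macaulay lemma
-/

set_option autoImplicit false

namespace Pool.Agent.Helper26.PN

open MvPolynomial

variable {m d : ℕ}

/-- the exponents of degree `D` -/
abbrev Ex (m D : ℕ) : Type := {s : Fin (m + 1) →₀ ℕ // s.degree = D}

theorem finite_Ex (m D : ℕ) : Finite (Ex m D) := by
  have h : ({s : Fin (m + 1) →₀ ℕ | s.degree = D}).Finite :=
    (Finsupp.finite_of_degree_le (σ := Fin (m + 1)) D).subset fun s hs => le_of_eq hs
  exact h.to_subtype

theorem exists_index {s : Fin (m + 1) →₀ ℕ} (hs : s.degree = (m + 1) * (d - 1) + 1) :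
    ∃ i, d ≤ s i := by
  by_contra h
  push Not at h
  have h1 : s.degree ≤ ∑ _i : Fin (m + 1), (d - 1) := by
    rw [Finsupp.degree_eq_sum]
    exact Finset.sum_le_sum fun i _ => by have := h i; omega
  rw [Finset.sum_const, Finset.card_univ, Fintype.card_fin, smul_eq_mul] at h1
  omega

/-- the value of a form in terms of its coefficients -/
theorem eval_hom_sum {D : ℕ} [Fintype (Ex m D)] {P : MvPolynomial (Fin (m + 1)) ℝ}
    (hP : P.IsHomogeneous D) (z : Fin (m + 1) → ℂ) :
    aeval z P = ∑ t : Ex m D, ((coeff t.1 P : ℝ) : ℂ) * ∏ i, z i ^ t.1 i := by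
  classical
  rw [aeval_def, eval₂_eq']
  have h1 : ∀ s ∈ P.support, s.degree = D := by
    intro s hs
    have h2 := hP (mem_support_iff.1 hs)
    rwa [show (Finsupp.weight 1) s = s.degree from
      (DFunLike.congr_fun (Finsupp.degree_eq_weight_one (R := ℕ)) s).symm] at h2
  have h3 : ∀ s : Fin (m + 1) →₀ ℕ, s ∉ P.support →
      algebraMap ℝ ℂ (coeff s P) * ∏ i, z i ^ s i = 0 := by
    intro s hs
    rw [notMem_support_iff.1 hs, map_zero, zero_mul]
  have h4 : ∑ t : Ex m D, ((coeff t.1 P : ℝ) : ℂ) * ∏ i, z i ^ t.1 i =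
      ∑ s ∈ Finset.univ.image (fun t : Ex m D => t.1),
        algebraMap ℝ ℂ (coeff s P) * ∏ i, z i ^ s i := by
    rw [Finset.sum_image fun a _ b _ hab => Subtype.ext hab]
    exact Finset.sum_congr rfl fun t _ => rfl
  rw [h4]
  refine Finset.sum_subset (fun s hs => ?_) fun s _ hs => h3 s hs
  exact Finset.mem_image.2 ⟨⟨s, h1 s hs⟩, Finset.mem_univ _, rfl⟩

theorem mac (m d : ℕ) : Mac m d := by
  classical
  intro P hP δ hδ
  set D := (m + 1) * (d - 1) + 1 with hD
  have : Fintype (Ex m D) := @Fintype.ofFinite _ (finite_Ex m D)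
  have hidx : ∀ s : Ex m D, ∃ i, d ≤ s.1 i := fun s => exists_index s.2
  choose ix hix using hidx
  -- the matrix
  set N : Matrix (Ex m D) (Ex m D) ℝ := Matrix.of fun s t =>
    coeff t.1 (monomial (s.1 - Finsupp.single (ix s) d) 1 * P (ix s)) with hN
  -- a good value
  obtain ⟨τ, hτ, hroot⟩ : ∃ τ ∈ Set.Ioo (0 : ℝ) δ, (-N).charpoly.eval τ ≠ 0 := by
    by_contra hcon
    push Not at hcon
    have h1 : (Set.Ioo (0 : ℝ) δ) ⊆ (((-N).charpoly.roots.toFinset : Finset ℝ) : Set ℝ) := by
      intro τ hτ
      rw [Finset.mem_coe, Multiset.mem_toFinset, Polynomial.mem_roots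
        (Matrix.charpoly_monic _).ne_zero]
      exact hcon τ hτ
    exact (Set.Ioo_infinite hδ) ((Finset.finite_toSet _).subset h1)
  refine ⟨τ, hτ.1, hτ.2, fun z hz => ?_⟩
  rw [Matrix.eval_charpoly, sub_neg_eq_add] at hroot
  set A : Matrix (Ex m D) (Ex m D) ℝ := Matrix.scalar (Ex m D) τ + N with hA
  have hAC : (A.map Complex.ofRealHom).det ≠ 0 := by
    have h1 := Complex.ofRealHom.map_det A
    rw [RingHom.mapMatrix_apply] at h1
    rw [← h1]
    exact Complex.ofReal_ne_zero.2 hroot
  have hmul : (A.map Complex.ofRealHom).mulVec (fun t : Ex m D => ∏ i, z i ^ t.1 i) = 0 := by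
    funext s
    set i := ix s with hi
    set G : MvPolynomial (Fin (m + 1)) ℝ :=
      monomial (s.1 - Finsupp.single i d) 1 * (P i + C τ * X i ^ d) with hG
    have hsplit : s.1 - Finsupp.single i d + Finsupp.single i d = s.1 :=
      tsub_add_cancel_of_le (Finsupp.single_le_iff.2 (hix s))
    have hGhom : G.IsHomogeneous D := by
      have h1 : (monomial (s.1 - Finsupp.single i d) (1 : ℝ)).IsHomogeneous (D - d) := by
        refine isHomogeneous_monomial _ ?_
        have h2 := congrArg Finsupp.degree hsplit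
        rw [map_add, Finsupp.degree_single, s.2] at h2
        omega
      have h3 := h1.mul ((hP i).add (CX_hom τ i))
      have h4 : D - d + d = D := by
        have h2 := congrArg Finsupp.degree hsplit
        rw [map_add, Finsupp.degree_single, s.2] at h2
        omega
      rwa [h4] at h3
    have hcoef : ∀ t : Ex m D, A s t = coeff t.1 G := by
      intro t
      rw [hA, Matrix.add_apply, hN, Matrix.of_apply, hG, mul_add, coeff_add, ← hi, add_comm]
      congr 1
      have h1 : monomial (s.1 - Finsupp.single i d) (1 : ℝ) * (C τ * X i ^ d) =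
          monomial s.1 τ := by
        rw [X_pow_eq_monomial, C_mul_monomial, monomial_mul, hsplit, one_mul, mul_one]
      rw [h1, coeff_monomial, Matrix.scalar_apply, Matrix.diagonal_apply]
      by_cases h : s = t
      · rw [if_pos h, if_pos (congrArg Subtype.val h)]
      · rw [if_neg h, if_neg (fun h2 => h (Subtype.ext h2))]
    have h5 : (A.map Complex.ofRealHom).mulVec (fun t : Ex m D => ∏ i, z i ^ t.1 i) s =
        aeval z G := by
      rw [eval_hom_sum hGhom, Matrix.mulVec, dotProduct]
      refine Finset.sum_congr rfl fun t _ => ?_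
      rw [Matrix.map_apply, hcoef]
      rfl
    rw [h5, hG, map_mul, hz i, mul_zero, Pi.zero_apply]
  have hu := Matrix.eq_zero_of_mulVec_eq_zero hAC hmul
  funext i
  have h1 := congrFun hu (⟨Finsupp.single i D, Finsupp.degree_single i D⟩ : Ex m D)
  simp only at h1
  rw [Finset.prod_eq_single i] at h1
  · rw [Finsupp.single_eq_same] at h1
    exact pow_eq_zero_iff (by omega : D ≠ 0) |>.1 h1
  · intro j _ hj
    rw [Finsupp.single_eq_of_ne hj, pow_zero]
  · intro h
    exact absurd (Finset.mem_univ i) h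

end Pool.Agent.Helper26.PN
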