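import Pool.Agent.Helper26.PN.Defs
import Pool.Agent.Helper26.PP.Eig

/-!
# The multipliers at a fixed point, in the chart `x_k = 1`
-/

set_option autoImplicit false

namespace Pool.Agent.Helper26.PN

open Finset MvPolynomial
open Pool.Agent.Helper26.PP (im_zero_of_close re_pos_of_close eq_zero_of_close)

variable {m d : ℕ} {F : Fin (m + 1) → MvPolynomial (Fin (m + 1)) ℝ}

/-- the Jacobian matrix in the chart `x_k = 1` -/
noncomputable def Qk (F : Fin (m + 1) → MvPolynomial (Fin (m + 1)) ℝ) (k : Fin (m + 1))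
    (v : Fin (m + 1) → ℝ) (c : ℝ) (i j : {j : Fin (m + 1) // j ≠ k}) : ℝ :=
  (eval v (pderiv j.1 (F i.1)) - v i.1 * eval v (pderiv j.1 (F k))) / c

theorem sum_ne {R : Type*} [AddCommMonoid R] (k : Fin (m + 1)) (f : Fin (m + 1) → R) :
    ∑ j, f j = f k + ∑ j : {j : Fin (m + 1) // j ≠ k}, f j := by
  rw [Fintype.sum_eq_add_sum_subtype_ne f k]

/-- the reduction to the chart -/
theorem reduceK (hom : ∀ i, (F i).IsHomogeneous d) {k : Fin (m + 1)} {v : Fin (m + 1) → ℝ}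
    (hv : v k = 1) {c : ℝ} (hc : c ≠ 0) (hFv : ∀ i, eval v (F i) = c * v i)
    (h : Fin (m + 1) → ℂ) (z β : ℂ)
    (hh : ∀ i, ∑ j, h j * ((eval v (pderiv j (F i)) : ℝ) : ℂ) - c * z * h i = β * v i)
    (i : {j : Fin (m + 1) // j ≠ k}) :
    ∑ j : {j : Fin (m + 1) // j ≠ k}, (Qk F k v c i j : ℂ) * (h j.1 - h k * v j.1) =
      z * (h i.1 - h k * v i.1) := by
  have hcC : (c : ℂ) ≠ 0 := by exact_mod_cast hc
  -- Euler
  have heul : ∀ i, ∑ j, (v j : ℂ) * ((eval v (pderiv j (F i)) : ℝ) : ℂ) = d * c * v i := by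
    intro i
    have h1 := congrArg (eval v) (IsHomogeneous.sum_X_mul_pderiv (hom i))
    rw [map_sum, nsmul_eq_mul, map_mul, map_natCast] at h1
    simp only [map_mul, eval_X] at h1
    rw [hFv] at h1
    have h3 := congrArg (fun t : ℝ => (t : ℂ)) h1
    push_cast at h3
    rw [h3]
    ring
  set g : Fin (m + 1) → ℂ := fun j => h j - h k * v j with hg
  have hgk : g k = 0 := by
    rw [hg]
    simp only [hv, Complex.ofReal_one, mul_one, sub_self]
  have h1 : ∀ i, ∑ j, g j * ((eval v (pderiv j (F i)) : ℝ) : ℂ) - c * z * g i =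
      (β - h k * (d * c) + c * z * h k) * v i := by
    intro i
    have h2 : ∑ j, g j * ((eval v (pderiv j (F i)) : ℝ) : ℂ) =
        ∑ j, h j * ((eval v (pderiv j (F i)) : ℝ) : ℂ) -
        h k * ∑ j, (v j : ℂ) * ((eval v (pderiv j (F i)) : ℝ) : ℂ) := by
      rw [Finset.mul_sum, ← sum_sub_distrib]
      refine sum_congr rfl fun j _ => ?_
      rw [hg]
      ring
    have h3 := hh i
    rw [h2, heul i]
    have h4 : ∑ j, h j * ((eval v (pderiv j (F i)) : ℝ) : ℂ) = β * v i + c * z * h i := by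
      rw [← h3]
      ring
    rw [h4, hg]
    ring
  have h2 := h1 k
  rw [hgk, mul_zero, sub_zero, hv, Complex.ofReal_one, mul_one] at h2
  have h3 := h1 i.1
  rw [← h2] at h3
  rw [sum_ne k, sum_ne k (fun j => g j * ((eval v (pderiv j (F k)) : ℝ) : ℂ)), hgk, zero_mul,
    zero_add, zero_mul, zero_add] at h3
  have h4 : ∑ j : {j : Fin (m + 1) // j ≠ k}, (Qk F k v c i j : ℂ) * g j.1 =
      (∑ j : {j : Fin (m + 1) // j ≠ k}, g j.1 * ((eval v (pderiv j.1 (F i.1)) : ℝ) : ℂ) -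
        (∑ j : {j : Fin (m + 1) // j ≠ k}, g j.1 * ((eval v (pderiv j.1 (F k)) : ℝ) : ℂ)) *
          v i.1) / c := by
    rw [Finset.sum_mul, ← sum_sub_distrib, Finset.sum_div]
    refine sum_congr rfl fun j _ => ?_
    rw [Qk]
    push_cast
    ring
  rw [h4, div_eq_iff hcC]
  linear_combination h3

/-- **Fixed points with simple positive multipliers.** -/
theorem mult_of_close (hom : ∀ i, (F i).IsHomogeneous d) {k : Fin (m + 1)}
    {v : Fin (m + 1) → ℝ} (hv : v k = 1) {c : ℝ} (hc : c ≠ 0)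
    (hFv : ∀ i, eval v (F i) = c * v i) (κ : {j : Fin (m + 1) // j ≠ k} → ℝ) {τ γ : ℝ}
    (hτ : 0 ≤ τ) (hQ : ∀ i j, |Qk F k v c i j - (if i = j then κ i else 0)| ≤ τ)
    (hκ : ∀ i j, i ≠ j → γ ≤ |κ i - κ j|) (hγ : 4 * (m : ℝ) * τ < γ)
    (hκ0 : ∀ i, (m : ℝ) * τ < κ i) :
    (∀ (h : Fin (m + 1) → ℂ) (β : ℂ),
      (∀ i, ∑ j, h j * ((eval v (pderiv j (F i)) : ℝ) : ℂ) = β * v i) →
        ∃ γ : ℂ, ∀ i, h i = γ * v i) ∧
    ∀ (h : Fin (m + 1) → ℂ) (z β : ℂ), (¬ ∃ γ : ℂ, ∀ i, h i = γ * v i) →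
      (∀ i, ∑ j, h j * ((eval v (pderiv j (F i)) : ℝ) : ℂ) - c * z * h i = β * v i) →
        z.im = 0 ∧ 0 < z.re := by
  have hcard : (Fintype.card {j : Fin (m + 1) // j ≠ k} : ℝ) = m := by
    rw [Fintype.card_subtype_compl, Fintype.card_fin, Fintype.card_subtype_eq]
    push_cast
    ring
  have hback : ∀ h : Fin (m + 1) → ℂ,
      (fun j : {j : Fin (m + 1) // j ≠ k} => h j.1 - h k * v j.1) = 0 →
      ∃ γ : ℂ, ∀ i, h i = γ * v i := by
    intro h h0
    refine ⟨h k, fun i => ?_⟩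
    by_cases hi : i = k
    · rw [hi, hv, Complex.ofReal_one, mul_one]
    · exact sub_eq_zero.1 (congrFun h0 ⟨i, hi⟩)
  refine ⟨fun h β hh => hback h ?_, fun h z β hne hh => ⟨?_, ?_⟩⟩
  · refine eq_zero_of_close (Qk F k v c) κ τ hQ (fun i => ?_) _ fun i => ?_
    · rw [hcard]
      exact (hκ0 i).trans_le (le_abs_self _)
    · have h1 := reduceK hom hv hc hFv h 0 β
        (fun i => by rw [mul_zero, zero_mul, sub_zero]; exact hh i) i
      rw [zero_mul] at h1
      exact h1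
  · exact im_zero_of_close (Qk F k v c) κ τ γ hτ hQ hκ (by rw [hcard]; exact hγ) _
      (fun h0 => hne (hback h h0)) z fun i => reduceK hom hv hc hFv h z β hh i
  · exact re_pos_of_close (Qk F k v c) κ τ hτ hQ (fun i => by rw [hcard]; exact hκ0 i) _
      (fun h0 => hne (hback h h0)) z fun i => reduceK hom hv hc hFv h z β hh i

end Pool.Agent.Helper26.PN
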