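import Pool.Agent.Helper26.PN.MultK
import Pool.Agent.Helper26.PP.Bounds

/-!
# Odd degree: estimates
-/

set_option autoImplicit false

namespace Pool.Agent.Helper26.PN

open Finset MvPolynomial
open Pool.Agent.Helper26.PP (Mn Mn_nonneg one_le_Mn eval_le hom_le eval_sub_le pderiv_le)

variable {m e : ℕ}

/-- the sum of the squares of the coordinates -/
noncomputable def Qp (m : ℕ) : MvPolynomial (Fin (m + 1)) ℝ := ∑ j, X j ^ 2

/-- the reference forms -/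
noncomputable def Pf (m e : ℕ) (i : Fin (m + 1)) : MvPolynomial (Fin (m + 1)) ℝ :=
  C (4 ^ (i : ℕ)) * X i * Qp m ^ e

theorem Qp_hom : (Qp m).IsHomogeneous 2 := IsHomogeneous.sum _ _ _ fun _ _ => isHomogeneous_X_pow _ _

theorem Qe_hom : (Qp m ^ e).IsHomogeneous (2 * e) := Qp_hom.pow e

theorem Pf_hom (i : Fin (m + 1)) : (Pf m e i).IsHomogeneous (2 * e + 1) := by
  have h := ((isHomogeneous_C (Fin (m + 1)) ((4 : ℝ) ^ (i : ℕ))).mul (isHomogeneous_X ℝ i)).mul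
    (Qe_hom (m := m) (e := e))
  rw [Pf]
  convert h using 1
  ring

theorem eval_Qp (x : Fin (m + 1) → ℝ) : eval x (Qp m) = ∑ j, x j ^ 2 := by
  rw [Qp, map_sum]
  exact sum_congr rfl fun j _ => by rw [map_pow, eval_X]

theorem sq_le_Qp (x : Fin (m + 1) → ℝ) (j : Fin (m + 1)) : x j ^ 2 ≤ eval x (Qp m) := by
  rw [eval_Qp]
  exact single_le_sum (f := fun j => x j ^ 2) (fun i _ => sq_nonneg _) (mem_univ j)

theorem Qe_ge {x : Fin (m + 1) → ℝ} {T : ℝ} (hT : ∃ j, |x j| = T) :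
    T ^ (2 * e) ≤ eval x (Qp m ^ e) := by
  obtain ⟨j, rfl⟩ := hT
  rw [map_pow, pow_mul, sq_abs]
  exact pow_le_pow_left₀ (sq_nonneg _) (sq_le_Qp x j) e

theorem Qe_ge_one {x : Fin (m + 1) → ℝ} {k : Fin (m + 1)} (hk : x k = 1) :
    1 ≤ eval x (Qp m ^ e) := by
  have h := Qe_ge (e := e) (x := x) (T := 1) ⟨k, by rw [hk, abs_one]⟩
  rwa [one_pow] at h

theorem eval_Pf (i : Fin (m + 1)) (x : Fin (m + 1) → ℝ) :
    eval x (Pf m e i) = 4 ^ (i : ℕ) * x i * eval x (Qp m ^ e) := by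
  rw [Pf, map_mul, map_mul, eval_C, eval_X]

/-- bounds for `Q ^ e` on the unit cube -/
theorem exists_Qe (m e : ℕ) : ∃ K : ℝ, 0 ≤ K ∧
    (∀ (x y : Fin (m + 1) → ℝ) (δ : ℝ), (∀ i, |x i| ≤ 1) → (∀ i, |y i| ≤ 1) →
      (∀ i, |x i - y i| ≤ δ) → |eval x (Qp m ^ e) - eval y (Qp m ^ e)| ≤ K * δ) ∧
    ∀ (x : Fin (m + 1) → ℝ), (∀ i, |x i| ≤ 1) → ∀ j, |eval x (pderiv j (Qp m ^ e))| ≤ K := by
  classical
  set b : ℝ := ∑ s ∈ (Qp m ^ e).support, |coeff s (Qp m ^ e)| with hb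
  have hb0 : 0 ≤ b := sum_nonneg fun s _ => abs_nonneg _
  have hcoef : ∀ s, |coeff s (Qp m ^ e)| ≤ b := by
    intro s
    by_cases hs : s ∈ (Qp m ^ e).support
    · exact single_le_sum (f := fun s => |coeff s (Qp m ^ e)|) (fun _ _ => abs_nonneg _) hs
    · rw [notMem_support_iff.1 hs, abs_zero]
      exact hb0
  have hM := Mn_nonneg (m := m) (d := 2 * e)
  refine ⟨b * Mn m (2 * e) * (2 * e : ℕ), by positivity, fun x y δ hx hy h => ?_,
    fun x hx j => ?_⟩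
  · refine (eval_sub_le Qe_hom.totalDegree_le hcoef hx hy h).trans (le_of_eq ?_)
    ring
  · exact pderiv_le Qe_hom.totalDegree_le hcoef hx j

theorem pderiv_Pf (i j : Fin (m + 1)) (x : Fin (m + 1) → ℝ) :
    eval x (pderiv j (Pf m e i)) = 4 ^ (i : ℕ) * ((if i = j then 1 else 0) * eval x (Qp m ^ e) +
      x i * eval x (pderiv j (Qp m ^ e))) := by
  rw [Pf, Derivation.leibniz, Derivation.leibniz, pderiv_C, smul_zero, add_zero, pderiv_X]
  by_cases h : i = j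
  · subst h
    rw [Pi.single_eq_same, if_pos rfl]
    simp only [smul_eq_mul, map_add, map_mul, eval_C, eval_X, map_one]
    ring
  · rw [Pi.single_eq_of_ne h, if_neg h]
    simp only [smul_eq_mul, map_add, map_mul, eval_C, eval_X, mul_zero, map_zero]
    ring

variable {lam ε : ℝ} {F : Fin (m + 1) → MvPolynomial (Fin (m + 1)) ℝ}

/-- the error forms -/
noncomputable def Ef (e : ℕ) (lam : ℝ) (F : Fin (m + 1) → MvPolynomial (Fin (m + 1)) ℝ)
    (i : Fin (m + 1)) : MvPolynomial (Fin (m + 1)) ℝ := F i - C lam * Pf m e i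

theorem Ef_hom (hom : ∀ i, (F i).IsHomogeneous (2 * e + 1)) (i : Fin (m + 1)) :
    (Ef e lam F i).IsHomogeneous (2 * e + 1) := by
  have h := (isHomogeneous_C (Fin (m + 1)) lam).mul (Pf_hom (m := m) (e := e) i)
  rw [zero_add] at h
  exact (hom i).sub h

/-- closeness to the reference forms -/
def ConeO (m e : ℕ) (ε lam : ℝ) (F : Fin (m + 1) → MvPolynomial (Fin (m + 1)) ℝ) : Prop :=
  ∀ i s, |coeff s (F i) - lam * coeff s (Pf m e i)| ≤ ε * lam

theorem coeff_Ef (hC : ConeO m e ε lam F) (i : Fin (m + 1)) (s : Fin (m + 1) →₀ ℕ) :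
    |coeff s (Ef e lam F i)| ≤ ε * lam := by
  rw [Ef, coeff_sub, coeff_C_mul]
  exact hC i s

theorem F_eq (i : Fin (m + 1)) : F i = C lam * Pf m e i + Ef e lam F i := by
  rw [Ef]
  ring

/-- the perturbation of the linear map -/
noncomputable def phi (e : ℕ) (lam : ℝ) (F : Fin (m + 1) → MvPolynomial (Fin (m + 1)) ℝ)
    (i : Fin (m + 1)) (x : Fin (m + 1) → ℝ) : ℝ :=
  eval x (Ef e lam F i) / (lam * eval x (Qp m ^ e))

theorem F_phi (hlam : 0 < lam) (i : Fin (m + 1)) {x : Fin (m + 1) → ℝ}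
    (hx : 0 < eval x (Qp m ^ e)) :
    eval x (F i) = lam * eval x (Qp m ^ e) * (4 ^ (i : ℕ) * x i + phi e lam F i x) := by
  rw [phi]
  conv_lhs => rw [F_eq (F := F) (e := e) (lam := lam) i]
  rw [map_add, map_mul, eval_C, eval_Pf]
  have h1 : lam * eval x (Qp m ^ e) ≠ 0 := (mul_pos hlam hx).ne'
  rw [mul_add, mul_div_cancel₀ _ h1]
  ring

theorem phi_le (hlam : 0 < lam) (hom : ∀ i, (F i).IsHomogeneous (2 * e + 1))
    (hC : ConeO m e ε lam F) (i : Fin (m + 1)) {x : Fin (m + 1) → ℝ} {T : ℝ} (hT : 0 < T)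
    (hx : ∀ i, |x i| ≤ T) (hxT : ∃ i, |x i| = T) :
    |phi e lam F i x| ≤ ε * Mn m (2 * e + 1) * T := by
  have h1 := hom_le (Ef_hom (lam := lam) hom i) (coeff_Ef hC i) hx
  have h2 := Qe_ge (e := e) hxT
  have h3 : 0 < T ^ (2 * e) := by positivity
  have h4 : 0 < eval x (Qp m ^ e) := h3.trans_le h2
  have hε : 0 ≤ ε * lam := (abs_nonneg _).trans (coeff_Ef hC i 0)
  have hM := Mn_nonneg (m := m) (d := 2 * e + 1)
  rw [phi, abs_div, abs_of_pos (mul_pos hlam h4), div_le_iff₀ (mul_pos hlam h4)]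
  refine h1.trans ?_
  rw [pow_succ]
  have h5 : ε * lam * Mn m (2 * e + 1) * (T ^ (2 * e) * T) =
      (ε * lam * Mn m (2 * e + 1) * T) * T ^ (2 * e) := by ring
  have h6 : ε * Mn m (2 * e + 1) * T * (lam * eval x (Qp m ^ e)) =
      (ε * lam * Mn m (2 * e + 1) * T) * eval x (Qp m ^ e) := by ring
  rw [h5, h6]
  exact mul_le_mul_of_nonneg_left h2 (by positivity)

theorem phi_sub_le {K : ℝ} (hK : ∀ (x y : Fin (m + 1) → ℝ) (δ : ℝ), (∀ i, |x i| ≤ 1) →
      (∀ i, |y i| ≤ 1) → (∀ i, |x i - y i| ≤ δ) →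
        |eval x (Qp m ^ e) - eval y (Qp m ^ e)| ≤ K * δ)
    (hlam : 0 < lam) (hom : ∀ i, (F i).IsHomogeneous (2 * e + 1))
    (hC : ConeO m e ε lam F) (i : Fin (m + 1)) {k : Fin (m + 1)} {x y : Fin (m + 1) → ℝ} {δ : ℝ}
    (hx : ∀ i, |x i| ≤ 1) (hy : ∀ i, |y i| ≤ 1) (hxk : x k = 1) (hyk : y k = 1)
    (h : ∀ i, |x i - y i| ≤ δ) :
    |phi e lam F i x - phi e lam F i y| ≤
      ε * Mn m (2 * e + 1) * ((2 * e + 1 : ℕ) + K) * δ := by
  have hE := eval_sub_le (Ef_hom (lam := lam) hom i).totalDegree_le (coeff_Ef hC i) hx hy h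
  have hEy := hom_le (Ef_hom (lam := lam) hom i) (coeff_Ef hC i) hy
  rw [one_pow, mul_one] at hEy
  have hq := hK x y δ hx hy h
  have h1 := Qe_ge_one (e := e) hxk
  have h2 := Qe_ge_one (e := e) hyk
  have hM := Mn_nonneg (m := m) (d := 2 * e + 1)
  have hε : 0 ≤ ε * lam := (abs_nonneg _).trans (coeff_Ef hC i 0)
  have hδ : 0 ≤ δ := (abs_nonneg _).trans (h 0)
  rw [phi, phi]
  set A := eval x (Qp m ^ e)
  set B := eval y (Qp m ^ e)
  set u := eval x (Ef e lam F i)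
  set w := eval y (Ef e lam F i)
  have hA : 0 < A := by linarith
  have hB : 0 < B := by linarith
  have h3 : u / (lam * A) - w / (lam * B) = (u - w) / (lam * A) - w * (A - B) / (lam * A * B) := by
    field_simp
    ring
  rw [h3]
  refine (abs_sub _ _).trans ?_
  have h4 : |(u - w) / (lam * A)| ≤ ε * Mn m (2 * e + 1) * (2 * e + 1 : ℕ) * δ := by
    rw [abs_div, abs_of_pos (mul_pos hlam hA), div_le_iff₀ (mul_pos hlam hA)]
    refine hE.trans ?_
    have h5 : ε * lam * Mn m (2 * e + 1) * ((2 * e + 1 : ℕ) * δ) =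
        (ε * lam * Mn m (2 * e + 1) * ((2 * e + 1 : ℕ) * δ)) * 1 := by ring
    have h6 : ε * Mn m (2 * e + 1) * (2 * e + 1 : ℕ) * δ * (lam * A) =
        (ε * lam * Mn m (2 * e + 1) * ((2 * e + 1 : ℕ) * δ)) * A := by ring
    rw [h5, h6]
    exact mul_le_mul_of_nonneg_left h1 (by positivity)
  have h5 : |w * (A - B) / (lam * A * B)| ≤ ε * Mn m (2 * e + 1) * K * δ := by
    rw [abs_div, abs_of_pos (mul_pos (mul_pos hlam hA) hB), abs_mul,
      div_le_iff₀ (mul_pos (mul_pos hlam hA) hB)]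
    have hKδ : 0 ≤ K * δ := (abs_nonneg _).trans hq
    refine (mul_le_mul hEy hq (abs_nonneg _) (by positivity)).trans ?_
    have h6 : ε * lam * Mn m (2 * e + 1) * (K * δ) =
        (ε * lam * Mn m (2 * e + 1) * (K * δ)) * 1 := by ring
    have h7 : ε * Mn m (2 * e + 1) * K * δ * (lam * A * B) =
        (ε * lam * Mn m (2 * e + 1) * (K * δ)) * (A * B) := by ring
    rw [h6, h7]
    exact mul_le_mul_of_nonneg_left (by nlinarith) (by positivity)
  have h6 : ε * Mn m (2 * e + 1) * ((2 * e + 1 : ℕ) + K) * δ =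
      ε * Mn m (2 * e + 1) * (2 * e + 1 : ℕ) * δ + ε * Mn m (2 * e + 1) * K * δ := by ring
  rw [h6]
  exact add_le_add h4 h5

end Pool.Agent.Helper26.PN
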